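import Pool.Agent.Helper12_Mader.Defs

set_option autoImplicit false

/-!
# Linking two colour classes at a critical vertex

If `X` is a set of vertices that is the union of two acyclic sets, and `X + y` is not, then `y` is
the middle vertex of a subdivision of the complete symmetric digraph on three vertices minus an arc,
all other vertices being in `X` (`gadget`).
-/

open Relation

namespace Pool.Agent.Helper2_Mader

open Pool.Agent.Helper12_Mader

variable {W : Type}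

/-- A walk from `a` to `b` with the list `P` of interior vertices. -/
def Wk (r : W → W → Prop) (a : W) (P : List W) (b : W) : Prop := List.IsChain r (a :: (P ++ [b]))

/-- the arcs inside `X` -/
def rX (D : Digraph W) (X : Set W) (a b : W) : Prop := a ∈ X ∧ b ∈ X ∧ D.Adj a b

theorem Wk.imp {r s : W → W → Prop} {a b : W} {P : List W} (h : Wk r a P b)
    (hrs : ∀ x y, r x y → s x y) : Wk s a P b :=
  List.IsChain.imp (fun x y => hrs x y) h

theorem Wk.split {r : W → W → Prop} {a x b : W} {l₁ l₂ : List W} :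
    Wk r a (l₁ ++ x :: l₂) b ↔ Wk r a l₁ x ∧ Wk r x l₂ b := by
  unfold Wk
  have e : a :: (l₁ ++ x :: l₂ ++ [b]) = a :: (l₁ ++ x :: (l₂ ++ [b])) := by simp
  rw [e, List.isChain_cons_split]

theorem Wk.nil {r : W → W → Prop} {a b : W} : Wk r a [] b ↔ r a b := by
  simp [Wk]

theorem Wk.cons {r : W → W → Prop} {a c b : W} {P : List W} :
    Wk r a (c :: P) b ↔ r a c ∧ Wk r c P b := by
  simp [Wk, List.isChain_cons_cons]

theorem exists_path {r : W → W → Prop} {a b : W} (h : TransGen r a b) :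
    ∃ P : List W, Wk r a P b ∧ P.Nodup ∧ a ∉ P ∧ b ∉ P := by
  classical
  induction h using TransGen.head_induction_on with
  | single h => exact ⟨[], Wk.nil.2 h, by simp, by simp, by simp⟩
  | head hac hcb ih =>
    rename_i a c
    obtain ⟨P, hP, hn, hc, hb⟩ := ih
    by_cases h1 : a = c
    · subst h1
      exact ⟨P, hP, hn, hc, hb⟩
    by_cases h2 : c = b
    · subst h2
      exact ⟨[], Wk.nil.2 hac, by simp, by simp, by simp⟩
    by_cases h3 : a ∈ P
    · obtain ⟨l₁, l₂, rfl⟩ := List.append_of_mem h3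
      rw [List.nodup_append] at hn
      obtain ⟨-, hn2, -⟩ := hn
      rw [List.nodup_cons] at hn2
      refine ⟨l₂, (Wk.split.1 hP).2, hn2.2, hn2.1, ?_⟩
      intro h4
      exact hb (by simp [h4])
    · refine ⟨c :: P, Wk.cons.2 ⟨hac, hP⟩, List.nodup_cons.2 ⟨hc, hn⟩, ?_, ?_⟩
      · simp only [List.mem_cons, not_or]
        exact ⟨h1, h3⟩
      · simp only [List.mem_cons, not_or]
        exact ⟨fun h => h2 h.symm, hb⟩

theorem Wk.mem {D : Digraph W} {X : Set W} {a b : W} {P : List W} (h : Wk (rX D X) a P b) :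
    ∀ x ∈ P, x ∈ X := by
  intro x hx
  obtain ⟨l₁, l₂, rfl⟩ := List.append_of_mem hx
  have h2 := (Wk.split.1 h).2
  cases l₂ with
  | nil => exact (Wk.nil.1 h2).1
  | cons c l => exact (Wk.cons.1 h2).1.1

/-- A petal at `y` inside `Z`. -/
def Petal (D : Digraph W) (y : W) (Z : Set W) (P : List W) : Prop :=
  P ≠ [] ∧ P.Nodup ∧ (∀ x ∈ P, x ∈ Z) ∧ Wk D.Adj y P y

theorem exists_petal (D : Digraph W) (hD : ∀ v, ¬ D.Adj v v) {Z : Set W} {y : W}
    (hZ : IsAcyclicSet D Z) (h : ¬ IsAcyclicSet D (insert y Z)) : ∃ P, Petal D y Z P := by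
  classical
  unfold IsAcyclicSet at h
  push Not at h
  obtain ⟨v, hv⟩ := h
  have hv' : TransGen (rX D (insert y Z)) v v := hv
  have key : ∀ x, TransGen (rX D (insert y Z)) x v →
      TransGen (rX D Z) x v ∨
        (ReflTransGen (rX D (insert y Z)) x y ∧ ReflTransGen (rX D (insert y Z)) y v) := by
    intro x hx
    induction hx using TransGen.head_induction_on with
    | single h =>
      rename_i a
      by_cases h1 : a = y
      · subst h1
        exact Or.inr ⟨ReflTransGen.refl, ReflTransGen.single h⟩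
      by_cases h2 : v = y
      · subst h2
        exact Or.inr ⟨ReflTransGen.single h, ReflTransGen.refl⟩
      exact Or.inl (TransGen.single ⟨h.1.resolve_left h1, h.2.1.resolve_left h2, h.2.2⟩)
    | head hac hcb ih =>
      rename_i a c
      rcases ih with ih | ih
      · by_cases h1 : a = y
        · subst h1
          exact Or.inr ⟨ReflTransGen.refl, ReflTransGen.head hac hcb.to_reflTransGen⟩
        by_cases h2 : c = y
        · subst h2
          exact Or.inr ⟨ReflTransGen.single hac, hcb.to_reflTransGen⟩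
        exact Or.inl (TransGen.head ⟨hac.1.resolve_left h1, hac.2.1.resolve_left h2, hac.2.2⟩ ih)
      · exact Or.inr ⟨ReflTransGen.head hac ih.1, ih.2⟩
  have hy : TransGen (rX D (insert y Z)) y y := by
    rcases key v hv' with h1 | h1
    · exact absurd h1 (hZ v)
    · exact TransGen.trans_right h1.2 (TransGen.trans_left hv' h1.1)
  obtain ⟨P, hP, hn, hyP, -⟩ := exists_path hy
  refine ⟨P, ?_, hn, ?_, hP.imp fun a b h => h.2.2⟩
  · rintro rfl
    exact hD y (Wk.nil.1 hP).2.2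
  · intro x hx
    rcases hP.mem x hx with h1 | h1
    · subst h1
      exact absurd hx hyP
    · exact h1

/-- mutual reachability along a closed walk -/
theorem closed_walk {r : W → W → Prop} {v : W} (h : TransGen r v v) :
    TransGen (fun a b => r a b ∧ (ReflTransGen r v a ∧ ReflTransGen r a v) ∧
      (ReflTransGen r v b ∧ ReflTransGen r b v)) v v := by
  have key : ∀ x, TransGen r x v → ReflTransGen r v x →
      TransGen (fun a b => r a b ∧ (ReflTransGen r v a ∧ ReflTransGen r a v) ∧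
        (ReflTransGen r v b ∧ ReflTransGen r b v)) x v := by
    intro x hx
    induction hx using TransGen.head_induction_on with
    | single h =>
      intro h2
      exact TransGen.single ⟨h, ⟨h2, ReflTransGen.single h⟩, ReflTransGen.refl, ReflTransGen.refl⟩
    | head hac hcb ih =>
      intro h2
      have h3 := ReflTransGen.tail h2 hac
      exact TransGen.head ⟨hac, ⟨h2, ReflTransGen.head hac hcb.to_reflTransGen⟩, h3,
        hcb.to_reflTransGen⟩ (ih h3)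
  exact key v h ReflTransGen.refl

/-- two linked petals in different classes -/
theorem link (D : Digraph W) (hD : ∀ v, ¬ D.Adj v v) {X : Set W} {y : W} {Z₁ Z₂ : Set W}
    (hX : Z₁ ∪ Z₂ = X) (hd : Disjoint Z₁ Z₂) (h1 : IsAcyclicSet D Z₁) (h2 : IsAcyclicSet D Z₂)
    (hn : ∀ T₁ T₂ : Set W, T₁ ∪ T₂ = insert y X → IsAcyclicSet D T₁ → ¬ IsAcyclicSet D T₂) :
    ∃ P₁ P₂ : List W, Petal D y X P₁ ∧ Petal D y X P₂ ∧ (∀ x ∈ P₁, x ∉ P₂) ∧
      ∃ a ∈ P₁, ∃ b ∈ P₂, TransGen (rX D X) a b := by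
  classical
  by_contra hcon
  -- a partition into two acyclic sets has a petal in the first class
  have hpet : ∀ Z₁ Z₂ : Set W, Z₁ ∪ Z₂ = X → IsAcyclicSet D Z₁ → IsAcyclicSet D Z₂ →
      ∃ P, Petal D y Z₁ P := by
    intro Z₁ Z₂ hX h1 h2
    refine exists_petal D hD h1 (hn Z₂ _ ?_ h2)
    rw [← hX]
    ext x
    simp only [Set.mem_union, Set.mem_insert_iff]
    tauto
  have H : ∀ Z₁ Z₂ : Set W, Z₁ ∪ Z₂ = X → Disjoint Z₁ Z₂ → ∀ P₁ P₂, Petal D y Z₁ P₁ →
      Petal D y Z₂ P₂ → ∀ a ∈ P₁, ∀ b ∈ P₂, ¬ ReflTransGen (rX D X) a b := by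
    intro Z₁ Z₂ hX hd P₁ P₂ hP₁ hP₂ a ha b hb hab
    have hdd : ∀ x ∈ P₁, x ∉ P₂ := fun x hx1 hx2 =>
      Set.disjoint_left.1 hd (hP₁.2.2.1 x hx1) (hP₂.2.2.1 x hx2)
    have hne : b ≠ a := by
      rintro rfl
      exact hdd b ha hb
    have hT : TransGen (rX D X) a b := by
      rcases reflTransGen_iff_eq_or_transGen.1 hab with h | h
      · exact absurd h hne
      · exact h
    refine hcon ⟨P₁, P₂, ⟨hP₁.1, hP₁.2.1, fun x hx => ?_, hP₁.2.2.2⟩,
      ⟨hP₂.1, hP₂.2.1, fun x hx => ?_, hP₂.2.2.2⟩, hdd, a, ha, b, hb, hT⟩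
    · rw [← hX]
      exact Or.inl (hP₁.2.2.1 x hx)
    · rw [← hX]
      exact Or.inr (hP₂.2.2.1 x hx)
  obtain ⟨U, hU⟩ : ∃ U : Set W, U = {x | ∃ P, Petal D y Z₁ P ∧ ∃ a ∈ P,
    ReflTransGen (rX D X) a x ∧ ReflTransGen (rX D X) x a} := ⟨_, rfl⟩
  have hUpet : ∀ P, Petal D y Z₁ P → ∀ x ∈ P, x ∈ U := by
    intro P hP x hx
    rw [hU]
    exact ⟨P, hP, x, hx, ReflTransGen.refl, ReflTransGen.refl⟩
  have hUcl : ∀ x z, x ∈ U → ReflTransGen (rX D X) x z → ReflTransGen (rX D X) z x → z ∈ U := by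
    intro x z hx h3 h4
    rw [hU] at hx ⊢
    obtain ⟨P, hP, a, ha, h5, h6⟩ := hx
    exact ⟨P, hP, a, ha, h5.trans h3, h4.trans h6⟩
  -- swapping the classes inside `U` keeps them acyclic
  have hsw : ∀ A B : Set W, A ⊆ X → B ⊆ X → IsAcyclicSet D A → IsAcyclicSet D B →
      IsAcyclicSet D ((A \ U) ∪ (B ∩ U)) := by
    intro A B hAX hBX hA hB v hv
    have hsub : ∀ x, x ∈ (A \ U) ∪ (B ∩ U) → x ∈ X := by
      rintro x (hx | hx)
      · exact hAX hx.1
      · exact hBX hx.1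
    have hv' : TransGen (rX D ((A \ U) ∪ (B ∩ U))) v v := hv
    have hmono : ∀ x z, ReflTransGen (rX D ((A \ U) ∪ (B ∩ U))) x z →
        ReflTransGen (rX D X) x z := fun x z h =>
      ReflTransGen.mono (fun a b hab => ⟨hsub a hab.1, hsub b hab.2.1, hab.2.2⟩) x z h
    have h3 := closed_walk hv'
    by_cases hvU : v ∈ U
    · refine hB v (TransGen.mono ?_ v v h3)
      rintro a b ⟨⟨ha, hb, hab⟩, ⟨h4, h5⟩, h6, h7⟩
      have haU := hUcl v a hvU (hmono _ _ h4) (hmono _ _ h5)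
      have hbU := hUcl v b hvU (hmono _ _ h6) (hmono _ _ h7)
      refine ⟨?_, ?_, hab⟩
      · rcases ha with ha | ha
        · exact absurd haU ha.2
        · exact ha.1
      · rcases hb with hb | hb
        · exact absurd hbU hb.2
        · exact hb.1
    · refine hA v (TransGen.mono ?_ v v h3)
      rintro a b ⟨⟨ha, hb, hab⟩, ⟨h4, h5⟩, h6, h7⟩
      have haU : a ∉ U := fun h => hvU (hUcl a v h (hmono _ _ h5) (hmono _ _ h4))
      have hbU : b ∉ U := fun h => hvU (hUcl b v h (hmono _ _ h7) (hmono _ _ h6))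
      refine ⟨?_, ?_, hab⟩
      · rcases ha with ha | ha
        · exact ha.1
        · exact absurd ha.2 haU
      · rcases hb with hb | hb
        · exact hb.1
        · exact absurd hb.2 hbU
  have hZ₁X : Z₁ ⊆ X := by
    rw [← hX]
    exact Set.subset_union_left
  have hZ₂X : Z₂ ⊆ X := by
    rw [← hX]
    exact Set.subset_union_right
  obtain ⟨Y₁, hY₁⟩ : ∃ Y₁, Y₁ = (Z₁ \ U) ∪ (Z₂ ∩ U) := ⟨_, rfl⟩
  obtain ⟨Y₂, hY₂⟩ : ∃ Y₂, Y₂ = (Z₂ \ U) ∪ (Z₁ ∩ U) := ⟨_, rfl⟩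
  have hY : Y₁ ∪ Y₂ = X := by
    rw [hY₁, hY₂, ← hX]
    ext x
    simp only [Set.mem_union, Set.mem_sdiff, Set.mem_inter_iff]
    tauto
  have hYd : Disjoint Y₁ Y₂ := by
    rw [Set.disjoint_left, hY₁, hY₂]
    intro x hx1 hx2
    have h3 : x ∈ Z₁ → x ∉ Z₂ := fun h => Set.disjoint_left.1 hd h
    simp only [Set.mem_union, Set.mem_sdiff, Set.mem_inter_iff] at hx1 hx2
    tauto
  have hA1 : IsAcyclicSet D Y₁ := hY₁ ▸ hsw Z₁ Z₂ hZ₁X hZ₂X h1 h2
  have hA2 : IsAcyclicSet D Y₂ := hY₂ ▸ hsw Z₂ Z₁ hZ₂X hZ₁X h2 h1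
  obtain ⟨P', hP'⟩ := hpet Y₁ Y₂ hY hA1 hA2
  have hold : ∀ P, Petal D y Z₁ P → Petal D y Y₂ P := by
    intro P hP
    refine ⟨hP.1, hP.2.1, fun x hx => ?_, hP.2.2.2⟩
    rw [hY₂]
    exact Or.inr ⟨hP.2.2.1 x hx, hUpet P hP x hx⟩
  have hP'U : ∀ x ∈ P', x ∉ U := by
    intro x hx hxU
    rw [hU] at hxU
    obtain ⟨P, hP, a, ha, h3, h4⟩ := hxU
    exact H Y₁ Y₂ hY hYd P' P hP' (hold P hP) x hx a ha h4
  have hP'Z : Petal D y Z₁ P' := by
    refine ⟨hP'.1, hP'.2.1, fun x hx => ?_, hP'.2.2.2⟩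
    have h3 := hP'.2.2.1 x hx
    rw [hY₁] at h3
    rcases h3 with h3 | h3
    · exact h3.1
    · exact absurd h3.2 (hP'U x hx)
  obtain ⟨x, hx⟩ := List.exists_mem_of_ne_nil P' hP'.1
  exact hP'U x hx (hUpet P' hP'Z x hx)

/-- THE GADGET: two petals and a path which links them. -/
theorem gadget (D : Digraph W) (hD : ∀ v, ¬ D.Adj v v) {X : Set W} {y : W} {Z₁ Z₂ : Set W}
    (hX : Z₁ ∪ Z₂ = X) (hd : Disjoint Z₁ Z₂) (h1 : IsAcyclicSet D Z₁) (h2 : IsAcyclicSet D Z₂)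
    (hn : ∀ T₁ T₂ : Set W, T₁ ∪ T₂ = insert y X → IsAcyclicSet D T₁ → ¬ IsAcyclicSet D T₂) :
    ∃ (P₁ P₂ Q : List W) (a b : W), Petal D y X P₁ ∧ Petal D y X P₂ ∧ (∀ x ∈ P₁, x ∉ P₂) ∧
      a ∈ P₁ ∧ b ∈ P₂ ∧ Wk D.Adj a Q b ∧ Q.Nodup ∧ (∀ x ∈ Q, x ∈ X) ∧ (∀ x ∈ Q, x ∉ P₁) ∧
      ∀ x ∈ Q, x ∉ P₂ := by
  classical
  obtain ⟨P₁, P₂, hP₁, hP₂, hdd, a₀, ha₀, b₀, hb₀, hab₀⟩ := link D hD hX hd h1 h2 hn
  obtain ⟨Q₀, hQ₀, hn₀, -, -⟩ := exists_path hab₀
  have hex : ∃ n : ℕ, ∃ (Q : List W) (a b : W), Q.length = n ∧ a ∈ P₁ ∧ b ∈ P₂ ∧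
      Wk (rX D X) a Q b ∧ Q.Nodup := ⟨_, Q₀, a₀, b₀, rfl, ha₀, hb₀, hQ₀, hn₀⟩
  obtain ⟨Q, a, b, hlen, ha, hb, hQ, hnd⟩ := Nat.find_spec hex
  have hmin := fun m => Nat.find_min (m := m) hex
  refine ⟨P₁, P₂, Q, a, b, hP₁, hP₂, hdd, ha, hb, hQ.imp fun _ _ h => h.2.2, hnd, hQ.mem, ?_, ?_⟩
  · intro x hx hxP
    obtain ⟨l₁, l₂, rfl⟩ := List.append_of_mem hx
    refine hmin l₂.length ?_ ⟨l₂, x, b, rfl, hxP, hb, (Wk.split.1 hQ).2, ?_⟩
    · rw [← hlen]
      simp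
      omega
    · exact (List.nodup_cons.1 (List.nodup_append.1 hnd).2.1).2
  · intro x hx hxP
    obtain ⟨l₁, l₂, rfl⟩ := List.append_of_mem hx
    refine hmin l₁.length ?_ ⟨l₁, a, x, rfl, ha, hxP, (Wk.split.1 hQ).1, ?_⟩
    · rw [← hlen]
      simp
    · exact (List.nodup_append.1 hnd).1

end Pool.Agent.Helper2_Mader
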