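import Pool.Agent.Helper2_Mader.Sd

set_option autoImplicit false

/-!
# Mader-perfect digraphs: definitions, translation to the internal form, the number of arcs
-/

open Relation

namespace Pool.Agent.Helper2_Mader

open Pool.Agent.Helper12_Mader

variable {V V' W : Type}

/-- every finite loopless digraph with dichromatic number at least `t` contains a subdivision of
`F` -/
def Forces (F : Digraph V) (t : ℕ) : Prop :=
  ∀ (n : ℕ) (D : Digraph (Fin n)), (∀ v, ¬ D.Adj v v) → t ≤ dichromaticNumber D →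
    HasSubdivision F D

/-- `F` is Mader-perfect: for every vertex set `S` the Mader number of the subdigraph induced by
`S` is the number of elements of `S` -/
def MaderPerfect (F : Digraph V) : Prop :=
  ∀ S : Set V, IsLeast {t | Forces (induced F S) t} S.ncard

theorem sd_of_has {F : Digraph V} {D : Digraph W} (h : HasSubdivision F D) :
    ∃ φ L, Sd F Set.univ D Set.univ φ L := by
  obtain ⟨φ, ℓ, p, hinj, hp⟩ := h
  refine ⟨φ, fun u v => (List.range (ℓ u v - 1)).map (fun i => p u v (i + 1)),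
    fun a _ b _ hab => hinj hab, fun _ _ => trivial, ?_, fun _ _ _ _ _ _ _ => trivial, ?_, ?_, ?_⟩
  · intro u _ v _ hA
    obtain ⟨h1, h2, h3, h4, -, -⟩ := hp u v hA
    obtain ⟨m, hm⟩ : ∃ m, ℓ u v = m + 1 := ⟨ℓ u v - 1, by omega⟩
    have e : φ u :: ((List.range (ℓ u v - 1)).map (fun i => p u v (i + 1)) ++ [φ v]) =
        (List.range (m + 2)).map (p u v) := by
      rw [List.range_succ_eq_map, List.range_succ, List.map_cons, List.map_map, List.map_append,
        h2, ← h3, hm]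
      simp [Function.comp_def]
    unfold Wk
    rw [e, List.isChain_iff_getElem]
    intro i hi
    simp only [List.length_map, List.length_range] at hi
    simp only [List.getElem_map, List.getElem_range]
    exact h4 i (by omega)
  · intro u _ v _ hA
    obtain ⟨-, -, -, -, -, h6⟩ := hp u v hA
    refine List.Nodup.map_on ?_ List.nodup_range
    intro i hi j hj hij
    rw [List.mem_range] at hi hj
    have := (h6 u v hA (i + 1) (j + 1) (by omega) (by omega) (by omega) (by omega) hij).2.2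
    omega
  · intro u _ v _ hA w _ hw
    obtain ⟨-, -, -, -, h5, -⟩ := hp u v hA
    rw [List.mem_map] at hw
    obtain ⟨i, hi, hiw⟩ := hw
    rw [List.mem_range] at hi
    exact h5 (i + 1) (by omega) (by omega) w hiw
  · intro u _ v _ hA u' _ v' _ hA' x hx hx'
    obtain ⟨-, -, -, -, -, h6⟩ := hp u v hA
    rw [List.mem_map] at hx hx'
    obtain ⟨i, hi, hix⟩ := hx
    obtain ⟨j, hj, hjx⟩ := hx'
    rw [List.mem_range] at hi hj
    obtain ⟨e1, e2, -⟩ := h6 u' v' hA' (i + 1) (j + 1) (by omega) (by omega) (by omega)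
      (by omega) (hix.trans hjx.symm)
    exact ⟨e1, e2⟩

theorem has_of_sd {F : Digraph V} {D : Digraph W} {φ : V → W} {L : V → V → List W}
    (h : Sd F Set.univ D Set.univ φ L) : HasSubdivision F D := by
  have hin : ∀ u v i, 0 < i → i < (L u v).length + 1 →
      ∃ k, ∃ hk : k < (L u v).length, i = k + 1 ∧
        (φ u :: (L u v ++ [φ v])).getD i (φ u) = (L u v)[k] := by
    intro u v i h0 h1
    obtain ⟨k, rfl⟩ : ∃ k, i = k + 1 := ⟨i - 1, by omega⟩
    refine ⟨k, by omega, rfl, ?_⟩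
    rw [List.getD_cons_succ, List.getD_append _ _ _ _ (by omega), List.getD_eq_getElem]
  refine ⟨φ, fun u v => (L u v).length + 1,
    fun u v i => (φ u :: (L u v ++ [φ v])).getD i (φ u),
    fun a b hab => h.inj trivial trivial hab, ?_⟩
  intro u v hA
  refine ⟨Nat.succ_le_succ (Nat.zero_le _), by simp, by simp, ?_, ?_, ?_⟩
  · intro i hi
    change i < (L u v).length + 1 at hi
    change D.Adj ((φ u :: (L u v ++ [φ v])).getD i (φ u))
      ((φ u :: (L u v ++ [φ v])).getD (i + 1) (φ u))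
    have hw := h.wk u trivial v trivial hA
    unfold Wk at hw
    rw [List.isChain_iff_getElem] at hw
    have hlen : (φ u :: (L u v ++ [φ v])).length = (L u v).length + 2 := by simp
    have h1 := hw i (by omega)
    rw [List.getD_eq_getElem _ _ (by omega), List.getD_eq_getElem _ _ (by omega)]
    exact h1
  · intro i h0 h1 w hw
    obtain ⟨k, hk, -, e⟩ := hin u v i h0 h1
    change (φ u :: (L u v ++ [φ v])).getD i (φ u) = φ w at hw
    rw [e] at hw
    exact h.br u trivial v trivial hA w trivial (hw ▸ List.getElem_mem hk)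
  · intro u' v' hA' i j h0 h1 h2 h3 hij
    obtain ⟨k, hk, ek, e⟩ := hin u v i h0 h1
    obtain ⟨k', hk', ek', e'⟩ := hin u' v' j h2 h3
    have hij' : (L u v)[k] = (L u' v')[k'] := by
      rw [← e, ← e']
      exact hij
    obtain ⟨e1, e2⟩ := h.disj u trivial v trivial hA u' trivial v' trivial hA' _
      (List.getElem_mem hk) (hij' ▸ List.getElem_mem hk')
    subst e1
    subst e2
    have := (h.nodup u trivial v trivial hA).getElem_inj_iff.1 hij'
    exact ⟨rfl, rfl, by omega⟩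

/-- from a colouring of the numbered copy of `Y` to a colouring of `Y` -/
theorem colS_of_dicolorable {D : Digraph W} {Y : Set W} {n : ℕ} (e : Y ≃ Fin n) {q : ℕ}
    (h : Dicolorable (⟨fun i j => D.Adj (e.symm i).1 (e.symm j).1⟩ : Digraph (Fin n)) q) :
    ColS D Y q := by
  classical
  obtain ⟨c, hc⟩ := h
  refine ⟨fun v => if hv : v ∈ Y then (c (e ⟨v, hv⟩)).1 else 0, ?_, ?_⟩
  · intro v hv
    simp only [hv, dif_pos]
    exact (c (e ⟨v, hv⟩)).2
  · intro i v hv
    have key : ∀ w, TransGen (rX D {v | v ∈ Y ∧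
        (if hv : v ∈ Y then (c (e ⟨v, hv⟩)).1 else 0) = i}) v w → ∀ (hv : v ∈ Y) (hw : w ∈ Y),
        (c (e ⟨v, hv⟩)).1 = i ∧ (c (e ⟨w, hw⟩)).1 = i ∧
        TransGen (fun a b => a ∈ {x | (c x).1 = i} ∧ b ∈ {x | (c x).1 = i} ∧
          (⟨fun i j => D.Adj (e.symm i).1 (e.symm j).1⟩ : Digraph (Fin n)).Adj a b)
          (e ⟨v, hv⟩) (e ⟨w, hw⟩) := by
      intro w hw
      induction hw with
      | single h =>
        intro hv hw
        have h1 := h.1.2
        have h2 := h.2.1.2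
        simp only [hv, hw, dif_pos] at h1 h2
        refine ⟨h1, h2, TransGen.single ⟨h1, h2, ?_⟩⟩
        simpa using h.2.2
      | tail h1 h2 ih =>
        intro hv hw
        have hm := h2.1.1
        obtain ⟨a1, a2, a3⟩ := ih hv hm
        have h4 := h2.2.1.2
        simp only [hw, dif_pos] at h4
        refine ⟨a1, h4, TransGen.tail a3 ⟨a2, h4, ?_⟩⟩
        simpa using h2.2.2
    have hvY : v ∈ Y := by
      rcases TransGen.head'_iff.1 hv with ⟨b, ⟨ha, -⟩, -⟩
      exact ha.1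
    obtain ⟨h1, -, h3⟩ := key v hv hvY hvY
    refine hc (c (e ⟨v, hvY⟩)) (e ⟨v, hvY⟩) (TransGen.mono ?_ _ _ h3)
    rintro a b ⟨ha, hb, hab⟩
    exact ⟨Fin.ext (Eq.trans ha h1.symm), Fin.ext (Eq.trans hb h1.symm), hab⟩

theorem perf_of_maderPerfect {F : Digraph V} (h : MaderPerfect F) : Perf F := by
  classical
  intro S W _ _ D hD Y hY
  obtain ⟨n, ⟨e⟩⟩ := Finite.exists_equiv_fin Y
  obtain ⟨D', hD'⟩ : ∃ D' : Digraph (Fin n),
    D' = ⟨fun i j => D.Adj (e.symm i).1 (e.symm j).1⟩ := ⟨_, rfl⟩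
  have hD'l : ∀ v, ¬ D'.Adj v v := by
    intro v
    rw [hD']
    exact hD _
  have hs : HasSubdivision (induced F S) D' := (h S).1 n D' hD'l
    (le_dichromaticNumber D' hD'l _ fun q hq => hY q (by
      rw [hD'] at hq
      exact colS_of_dicolorable e hq))
  obtain ⟨φ, L, hs⟩ := sd_of_has hs
  obtain ⟨w₀⟩ := (inferInstance : Nonempty W)
  obtain ⟨g, hg⟩ : ∃ g : Fin n → W, g = fun i => (e.symm i).1 := ⟨_, rfl⟩
  have hgi : Function.Injective g := by
    intro a b hab
    rw [hg] at hab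
    exact e.symm.injective (Subtype.ext hab)
  have hgY : ∀ i, g i ∈ Y := by
    intro i
    rw [hg]
    exact (e.symm i).2
  have hgA : ∀ i j, D'.Adj i j → D.Adj (g i) (g j) := by
    intro i j hij
    rw [hD'] at hij
    rw [hg]
    exact hij
  obtain ⟨φ', hφ'⟩ : ∃ φ' : V → W, φ' = fun u => if hu : u ∈ S then g (φ ⟨u, hu⟩) else w₀ :=
    ⟨_, rfl⟩
  obtain ⟨L', hL'⟩ : ∃ L' : V → V → List W, L' = fun u v =>
    if hu : u ∈ S ∧ v ∈ S then (L ⟨u, hu.1⟩ ⟨v, hu.2⟩).map g else [] := ⟨_, rfl⟩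
  have eφ : ∀ u (hu : u ∈ S), φ' u = g (φ ⟨u, hu⟩) := by
    intro u hu
    rw [hφ']
    simp only [hu, dif_pos]
  have eL : ∀ u v (hu : u ∈ S) (hv : v ∈ S), L' u v = (L ⟨u, hu⟩ ⟨v, hv⟩).map g := by
    intro u v hu hv
    rw [hL']
    simp only [hu, hv, and_self, dif_pos]
  refine ⟨φ', L', ?_, ?_, ?_, ?_, ?_, ?_, ?_⟩
  · intro a ha b hb hab
    rw [eφ a ha, eφ b hb] at hab
    exact congrArg Subtype.val (hs.inj trivial trivial (hgi hab))
  · intro u hu
    rw [eφ u hu]
    exact hgY _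
  · intro u hu v hv hA
    have h1 : Wk D'.Adj (φ ⟨u, hu⟩) (L ⟨u, hu⟩ ⟨v, hv⟩) (φ ⟨v, hv⟩) :=
      hs.wk ⟨u, hu⟩ trivial ⟨v, hv⟩ trivial hA
    rw [eφ u hu, eφ v hv, eL u v hu hv]
    unfold Wk at h1 ⊢
    have h2 : g (φ ⟨u, hu⟩) :: (List.map g (L ⟨u, hu⟩ ⟨v, hv⟩) ++ [g (φ ⟨v, hv⟩)]) =
        List.map g (φ ⟨u, hu⟩ :: (L ⟨u, hu⟩ ⟨v, hv⟩ ++ [φ ⟨v, hv⟩])) := by simp
    rw [h2]
    exact List.isChain_map_of_isChain g hgA h1
  · intro u hu v hv hA x hx
    rw [eL u v hu hv, List.mem_map] at hx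
    obtain ⟨i, -, rfl⟩ := hx
    exact hgY i
  · intro u hu v hv hA
    rw [eL u v hu hv]
    exact (hs.nodup ⟨u, hu⟩ trivial ⟨v, hv⟩ trivial hA).map hgi
  · intro u hu v hv hA w hw hx
    rw [eL u v hu hv, eφ w hw, List.mem_map] at hx
    obtain ⟨i, hi, hiw⟩ := hx
    have := hgi hiw
    subst this
    exact hs.br ⟨u, hu⟩ trivial ⟨v, hv⟩ trivial hA ⟨w, hw⟩ trivial hi
  · intro u hu v hv hA u' hu' v' hv' hA' x hx hx'
    rw [eL u v hu hv, List.mem_map] at hx
    rw [eL u' v' hu' hv', List.mem_map] at hx'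
    obtain ⟨i, hi, hix⟩ := hx
    obtain ⟨j, hj, hjx⟩ := hx'
    have e1 := hgi (hix.trans hjx.symm)
    subst e1
    obtain ⟨e2, e3⟩ := hs.disj ⟨u, hu⟩ trivial ⟨v, hv⟩ trivial hA ⟨u', hu'⟩ trivial ⟨v', hv'⟩
      trivial hA' i hi hj
    exact ⟨congrArg Subtype.val e2, congrArg Subtype.val e3⟩

/-- the complete digraph -/
def compl (t : ℕ) : Digraph (Fin t) := ⟨fun i j => i ≠ j⟩

theorem dichr_compl (t : ℕ) : t ≤ dichromaticNumber (compl t) := by
  refine le_dichromaticNumber _ (fun v (h : v ≠ v) => h rfl) t ?_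
  rintro q ⟨c, hc⟩
  have hinj : Function.Injective c := by
    intro a b hab
    by_contra hne
    refine hc (c a) a (TransGen.tail (TransGen.single (b := b) ⟨rfl, hab.symm, hne⟩)
      ⟨hab.symm, rfl, fun h => hne h.symm⟩)
  have := Fintype.card_le_of_injective c hinj
  simpa using this

theorem maderPerfect_of_perf [Finite V] {F : Digraph V} (h : Perf F) : MaderPerfect F := by
  classical
  intro S
  constructor
  · intro n D hD ht
    by_cases hS : S.Nonempty
    · have hS0 : 0 < S.ncard := (Set.ncard_pos (Set.toFinite S)).2 hS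
      have hn : Nonempty (Fin n) := by
        by_contra hn
        rw [not_nonempty_iff] at hn
        have h0 : dichromaticNumber D ≤ 0 :=
          Nat.sInf_le ⟨fun v => (hn.false v).elim, fun i => i.elim0⟩
        omega
      obtain ⟨φ, L, hs⟩ := h S (Fin n) D hD Set.univ (by
        rintro q ⟨c, hc, hca⟩
        refine ht.trans (Nat.sInf_le ⟨fun v => ⟨c v, hc v trivial⟩, fun i => ?_⟩)
        refine (hca i.1).mono fun v hv => ⟨trivial, ?_⟩
        have hv' : (⟨c v, hc v trivial⟩ : Fin q) = i := hv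
        exact congrArg Fin.val hv')
      refine has_of_sd (φ := fun u : S => φ u.1) (L := fun u v => L u.1 v.1) ?_
      exact ⟨fun a _ b _ hab => Subtype.ext (hs.inj a.2 b.2 hab), fun _ _ => trivial,
        fun u _ v _ hA => hs.wk u.1 u.2 v.1 v.2 hA, fun _ _ _ _ _ _ _ => trivial,
        fun u _ v _ hA => hs.nodup u.1 u.2 v.1 v.2 hA,
        fun u _ v _ hA w _ => hs.br u.1 u.2 v.1 v.2 hA w.1 w.2,
        fun u _ v _ hA u' _ v' _ hA' x hx hx' => by
          obtain ⟨e1, e2⟩ := hs.disj u.1 u.2 v.1 v.2 hA u'.1 u'.2 v'.1 v'.2 hA' x hx hx'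
          exact ⟨Subtype.ext e1, Subtype.ext e2⟩⟩
    · have hE : IsEmpty S := by
        rw [Set.not_nonempty_iff_eq_empty] at hS
        rw [hS]
        infer_instance
      exact ⟨fun u => (hE.false u).elim, fun u => (hE.false u).elim, fun u => (hE.false u).elim,
        fun u => (hE.false u).elim, fun u => (hE.false u).elim⟩
  · intro t ht
    obtain ⟨φ, -, -, hinj, -⟩ := ht t (compl t) (fun v (h : v ≠ v) => h rfl) (dichr_compl t)
    have := Nat.card_le_card_of_injective φ hinj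
    simpa using this

/-- THE CLOSURE THEOREM -/
theorem maderPerfect_glue [Finite V] {F : Digraph V} (hF : MaderPerfect F) (v : V) :
    MaderPerfect (glue F v) :=
  maderPerfect_of_perf ((perf_of_maderPerfect hF).glue v)

/-! ### Counting arcs -/

/-- the set of arcs -/
def arcs (F : Digraph V) : Set (V × V) := {e | F.Adj e.1 e.2}

theorem arcs_glue [Finite V] (F : Digraph V) (v : V) :
    (arcs F).ncard + 5 ≤ (arcs (glue F v)).ncard := by
  classical
  have h1 : ((fun e : V × V => ((Sum.inl e.1 : V ⊕ Fin 2), (Sum.inl e.2 : V ⊕ Fin 2))) ''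
      arcs F).ncard = (arcs F).ncard := Set.ncard_image_of_injective _ (by
    intro a b hab
    simp only [Prod.mk.injEq, Sum.inl.injEq] at hab
    exact Prod.ext hab.1 hab.2)
  obtain ⟨T, hT⟩ : ∃ T : Set ((V ⊕ Fin 2) × (V ⊕ Fin 2)), T =
    {(Sum.inl v, Sum.inr 0), (Sum.inl v, Sum.inr 1), (Sum.inr 0, Sum.inl v),
      (Sum.inr 1, Sum.inl v), (Sum.inr 0, Sum.inr 1)} := ⟨_, rfl⟩
  have h2 : T.ncard = 5 := by
    rw [hT, Set.ncard_insert_of_notMem (by simp), Set.ncard_insert_of_notMem (by simp),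
      Set.ncard_insert_of_notMem (by simp), Set.ncard_insert_of_notMem (by simp),
      Set.ncard_singleton]
  have hd : Disjoint ((fun e : V × V => ((Sum.inl e.1 : V ⊕ Fin 2), (Sum.inl e.2 : V ⊕ Fin 2))) ''
      arcs F) T := by
    rw [Set.disjoint_left]
    rintro _ ⟨e, -, rfl⟩ h
    rw [hT] at h
    simp at h
  have h3 := Set.ncard_union_eq hd (Set.toFinite _) (Set.toFinite _)
  rw [h1, h2] at h3
  rw [← h3]
  apply Set.ncard_le_ncard _ (Set.toFinite _)
  rintro x (⟨e, he, rfl⟩ | hx)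
  · exact he
  · rw [hT] at hx
    simp only [Set.mem_insert_iff, Set.mem_singleton_iff] at hx
    rcases hx with rfl | rfl | rfl | rfl | rfl
    · exact (rfl : v = v)
    · exact (rfl : v = v)
    · exact (rfl : v = v)
    · exact (rfl : v = v)
    · exact (⟨rfl, rfl⟩ : (0 : Fin 2) = 0 ∧ (1 : Fin 2) = 1)

/-- a vertex joined to `v` by a digon -/
def pend (F : Digraph V) (v : V) : Digraph (V ⊕ Unit) :=
  pull (Sum.map id fun _ => (0 : Fin 2)) (glue F v)

theorem arcs_pend [Finite V] (F : Digraph V) (v : V) :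
    (arcs F).ncard + 2 ≤ (arcs (pend F v)).ncard := by
  classical
  have h1 : ((fun e : V × V => ((Sum.inl e.1 : V ⊕ Unit), (Sum.inl e.2 : V ⊕ Unit))) ''
      arcs F).ncard = (arcs F).ncard := Set.ncard_image_of_injective _ (by
    intro a b hab
    simp only [Prod.mk.injEq, Sum.inl.injEq] at hab
    exact Prod.ext hab.1 hab.2)
  obtain ⟨T, hT⟩ : ∃ T : Set ((V ⊕ Unit) × (V ⊕ Unit)), T =
    {(Sum.inl v, Sum.inr ()), (Sum.inr (), Sum.inl v)} := ⟨_, rfl⟩
  have h2 : T.ncard = 2 := by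
    rw [hT, Set.ncard_insert_of_notMem (by simp), Set.ncard_singleton]
  have hd : Disjoint ((fun e : V × V => ((Sum.inl e.1 : V ⊕ Unit), (Sum.inl e.2 : V ⊕ Unit))) ''
      arcs F) T := by
    rw [Set.disjoint_left]
    rintro _ ⟨e, -, rfl⟩ h
    rw [hT] at h
    simp at h
  have h3 := Set.ncard_union_eq hd (Set.toFinite _) (Set.toFinite _)
  rw [h1, h2] at h3
  rw [← h3]
  apply Set.ncard_le_ncard _ (Set.toFinite _)
  rintro x (⟨e, he, rfl⟩ | hx)
  · exact he
  · rw [hT] at hx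
    simp only [Set.mem_insert_iff, Set.mem_singleton_iff] at hx
    rcases hx with rfl | rfl
    · exact (rfl : v = v)
    · exact (rfl : v = v)

theorem arcs_pull [Finite V] [Finite V'] (F : Digraph V) (e : V' ≃ V) :
    (arcs (pull e F)).ncard = (arcs F).ncard := by
  have h : arcs F = (fun x : V' × V' => (e x.1, e x.2)) '' arcs (pull e F) := by
    ext ⟨a, b⟩
    constructor
    · intro h
      refine ⟨(e.symm a, e.symm b), ?_, by simp⟩
      have h' : F.Adj a b := h
      change F.Adj (e (e.symm a)) (e (e.symm b))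
      simpa using h'
    · rintro ⟨x, hx, hxe⟩
      have h1 : F.Adj (e x.1) (e x.2) := hx
      simp only [Prod.mk.injEq] at hxe
      rw [← hxe.1, ← hxe.2]
      exact h1
  rw [h, Set.ncard_image_of_injective]
  intro x y hxy
  simp only [Prod.mk.injEq, EmbeddingLike.apply_eq_iff_eq] at hxy
  exact Prod.ext hxy.1 hxy.2

theorem perf_point : Perf (⟨fun _ _ => False⟩ : Digraph Unit) := by
  classical
  intro S W _ _ D hD Y hY
  obtain ⟨w₀⟩ := (inferInstance : Nonempty W)
  by_cases hS : () ∈ S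
  · have hS' : S = {()} := by
      ext x
      simp [hS]
    obtain ⟨y, hy⟩ : Y.Nonempty := by
      rw [Set.nonempty_iff_ne_empty]
      rintro rfl
      have := hY 0 (colS_empty D)
      rw [hS', Set.ncard_singleton] at this
      omega
    exact ⟨fun _ => y, fun _ _ => [], fun _ _ _ _ _ => rfl, fun _ _ => hy,
      fun _ _ _ _ h => h.elim, fun _ _ _ _ h => h.elim, fun _ _ _ _ h => h.elim,
      fun _ _ _ _ h => h.elim, fun _ _ _ _ h => h.elim⟩
  · exact ⟨fun _ => w₀, fun _ _ => [], fun _ _ _ _ _ => rfl, fun u hu => (hS hu).elim,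
      fun _ _ _ _ h => h.elim, fun _ _ _ _ h => h.elim, fun _ _ _ _ h => h.elim,
      fun _ _ _ _ h => h.elim, fun _ _ _ _ h => h.elim⟩

theorem glue_loopless {F : Digraph V} (hF : ∀ u, ¬ F.Adj u u) (v : V) :
    ∀ u, ¬ (glue F v).Adj u u := by
  rintro (a | i) h
  · exact hF a h
  · have h' : i = 0 ∧ i = 1 := h
    obtain ⟨h1, h2⟩ := h'
    rw [h1] at h2
    exact absurd h2 (by decide)

theorem perf_pend [Finite V] {F : Digraph V} (hp : Perf F) (v : V) : Perf (pend F v) :=
  (hp.glue v).pull _ (by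
    rintro (a | a) (b | b) hab
    · simpa using hab
    · simp at hab
    · simp at hab
    · rfl)

/-- `q` gluings at the vertex `v` -/
theorem glue_iter {V₀ : Type} [Fintype V₀] {F₀ : Digraph V₀} (v₀ : V₀) (hl : ∀ u, ¬ F₀.Adj u u)
    (hp : Perf F₀) (q : ℕ) : ∃ (V : Type) (_ : Fintype V) (F : Digraph V) (_ : V),
    Fintype.card V = Fintype.card V₀ + 2 * q ∧ (∀ u, ¬ F.Adj u u) ∧ Perf F ∧
      (arcs F₀).ncard + 5 * q ≤ (arcs F).ncard := by
  induction q with
  | zero => exact ⟨V₀, inferInstance, F₀, v₀, rfl, hl, hp, le_rfl⟩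
  | succ q ih =>
    obtain ⟨V, _, F, v, hc, hl, hp, ha⟩ := ih
    refine ⟨V ⊕ Fin 2, inferInstance, glue F v, Sum.inl v, ?_, glue_loopless hl v, hp.glue v, ?_⟩
    · rw [Fintype.card_sum, hc, Fintype.card_fin]
      ring
    · have := arcs_glue F v
      omega

/-- the number `m(k)` of the problem: the maximal number of arcs of a loopless Mader-perfect digraph
with `k` vertices -/
noncomputable def m (k : ℕ) : ℕ :=
  sSup {a | ∃ F : Digraph (Fin k), (∀ v, ¬ F.Adj v v) ∧ MaderPerfect F ∧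
    {e : Fin k × Fin k | F.Adj e.1 e.2}.ncard = a}

theorem m_bdd (k : ℕ) : BddAbove {a | ∃ F : Digraph (Fin k), (∀ v, ¬ F.Adj v v) ∧
    MaderPerfect F ∧ {e : Fin k × Fin k | F.Adj e.1 e.2}.ncard = a} := by
  refine ⟨(Set.univ : Set (Fin k × Fin k)).ncard, ?_⟩
  rintro a ⟨F, -, -, rfl⟩
  exact Set.ncard_le_ncard (Set.subset_univ _) (Set.toFinite _)

theorem le_m {k : ℕ} {V : Type} [Fintype V] {F : Digraph V} (hc : Fintype.card V = k)
    (hl : ∀ u, ¬ F.Adj u u) (hp : Perf F) : (arcs F).ncard ≤ m k := by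
  have e : Fin k ≃ V := Fintype.equivOfCardEq (by rw [Fintype.card_fin, hc])
  rw [← arcs_pull F e]
  exact le_csSup (m_bdd k) ⟨pull e F, fun u => hl (e u), maderPerfect_of_perf (hp.pull e e.injective),
    rfl⟩

theorem m_attained (n : ℕ) (hn : 1 ≤ n) : ∃ F : Digraph (Fin n), (∀ v, ¬ F.Adj v v) ∧
    Perf F ∧ (arcs F).ncard = m n := by
  have hne : {a | ∃ F : Digraph (Fin n), (∀ v, ¬ F.Adj v v) ∧
      MaderPerfect F ∧ {e : Fin n × Fin n | F.Adj e.1 e.2}.ncard = a}.Nonempty := by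
    obtain ⟨q, hq | hq⟩ := Nat.even_or_odd' (n - 1)
    · obtain ⟨V, _, F, v, hc, hl, hp, -⟩ := glue_iter () (fun _ h => h) perf_point q
      have e : Fin n ≃ V := Fintype.equivOfCardEq (by
        rw [Fintype.card_fin, hc, Fintype.card_unit]
        omega)
      exact ⟨_, pull e F, fun u => hl (e u), maderPerfect_of_perf (hp.pull e e.injective), rfl⟩
    · obtain ⟨V, _, F, v, hc, hl, hp, -⟩ := glue_iter () (fun _ h => h) perf_point q
      have e : Fin n ≃ V ⊕ Unit := Fintype.equivOfCardEq (by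
        rw [Fintype.card_fin, Fintype.card_sum, hc, Fintype.card_unit]
        omega)
      exact ⟨_, pull e (pend F v), fun u h => glue_loopless hl v _ h,
        maderPerfect_of_perf ((perf_pend hp v).pull e e.injective), rfl⟩
  obtain ⟨F, h1, h2, h3⟩ := Nat.sSup_mem hne (m_bdd n)
  exact ⟨F, h1, perf_of_maderPerfect h2, h3⟩

/-- THE RECURSION for `m(k)` -/
theorem m_rec (n k : ℕ) (hn : 1 ≤ n) (hnk : n ≤ k) : m n + 5 * (k - n) / 2 ≤ m k := by
  obtain ⟨F₀, hl₀, hp₀, ha₀⟩ := m_attained n hn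
  obtain ⟨q, hq | hq⟩ := Nat.even_or_odd' (k - n)
  · obtain ⟨V, _, F, v, hc, hl, hp, ha⟩ := glue_iter (⟨0, by omega⟩ : Fin n) hl₀ hp₀ q
    have h1 : (arcs F).ncard ≤ m k := le_m (by
      rw [hc, Fintype.card_fin]
      omega) hl hp
    omega
  · obtain ⟨V, _, F, v, hc, hl, hp, ha⟩ := glue_iter (⟨0, by omega⟩ : Fin n) hl₀ hp₀ q
    have h1 : (arcs (pend F v)).ncard ≤ m k := le_m (by
      rw [Fintype.card_sum, hc, Fintype.card_fin, Fintype.card_unit]
      omega) (fun u h => glue_loopless hl v _ h) (perf_pend hp v)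
    have h2 := arcs_pend F v
    omega

end Pool.Agent.Helper2_Mader
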