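import Pool.Agent.Helper2_Mader.Gadget

set_option autoImplicit false

/-!
# Subdivisions given by lists, gluing a gadget at a vertex
-/

open Relation

namespace Pool.Agent.Helper2_Mader

open Pool.Agent.Helper12_Mader

/-- the subdigraph of `F` induced by `S` -/
def induced {V : Type} (F : Digraph V) (S : Set V) : Digraph S := ⟨fun a b => F.Adj a b⟩

/-- the pull back of a digraph -/
def pull {V' V : Type} (e : V' → V) (F : Digraph V) : Digraph V' := ⟨fun a b => F.Adj (e a) (e b)⟩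

/-- `F` and two new vertices `a = inr 0`, `b = inr 1`, joined to `v` by digons, and the arc
`(a, b)` -/
def glue {V : Type} (F : Digraph V) (v : V) : Digraph (V ⊕ Fin 2) :=
  ⟨fun x y => match x, y with
    | Sum.inl a, Sum.inl b => F.Adj a b
    | Sum.inl a, Sum.inr _ => a = v
    | Sum.inr _, Sum.inl a => a = v
    | Sum.inr i, Sum.inr j => i = 0 ∧ j = 1⟩

/-- the subdigraph of `F` induced by `S` has a subdivision in `D` inside `X`: branch vertices `φ`,
lists of interior vertices `L` -/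
structure Sd {V W : Type} (F : Digraph V) (S : Set V) (D : Digraph W) (X : Set W) (φ : V → W)
    (L : V → V → List W) : Prop where
  inj : Set.InjOn φ S
  mem : ∀ u ∈ S, φ u ∈ X
  wk : ∀ u ∈ S, ∀ v ∈ S, F.Adj u v → Wk D.Adj (φ u) (L u v) (φ v)
  lmem : ∀ u ∈ S, ∀ v ∈ S, F.Adj u v → ∀ x ∈ L u v, x ∈ X
  nodup : ∀ u ∈ S, ∀ v ∈ S, F.Adj u v → (L u v).Nodup
  br : ∀ u ∈ S, ∀ v ∈ S, F.Adj u v → ∀ w ∈ S, φ w ∉ L u v
  disj : ∀ u ∈ S, ∀ v ∈ S, F.Adj u v → ∀ u' ∈ S, ∀ v' ∈ S, F.Adj u' v' →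
    ∀ x ∈ L u v, x ∈ L u' v' → u = u' ∧ v = v'

variable {V V' W W' : Type}

/-- the new lists -/
def newL (L : V → V → List W) (A B : Fin 2 → List W) (Q : List W) :
    V ⊕ Fin 2 → V ⊕ Fin 2 → List W
  | Sum.inl a, Sum.inl b => L a b
  | Sum.inl _, Sum.inr i => A i
  | Sum.inr i, Sum.inl _ => B i
  | Sum.inr _, Sum.inr _ => Q

theorem combine {F : Digraph V} {S' : Set (V ⊕ Fin 2)} {D : Digraph W} {X Y : Set W} {φ : V → W}
    {L : V → V → List W} (h : Sd F (Sum.inl ⁻¹' S') D Y φ L) (hYX : Y ⊆ X) (v : V)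
    (ψ : Fin 2 → W) (A B : Fin 2 → List W) (Q : List W)
    (hnd : ∀ i, Sum.inr i ∈ S' → (A i ++ ψ i :: B i).Nodup)
    (hC : ∀ i, Sum.inr i ∈ S' → ∀ x ∈ A i ++ ψ i :: B i, x ∈ X ∧ x ∉ Y)
    (h01 : Sum.inr 0 ∈ S' → Sum.inr 1 ∈ S' → ∀ x ∈ A 0 ++ ψ 0 :: B 0, x ∉ A 1 ++ ψ 1 :: B 1)
    (hQ : Sum.inr 0 ∈ S' → Sum.inr 1 ∈ S' → Q.Nodup ∧ (∀ x ∈ Q, x ∈ X ∧ x ∉ Y) ∧
      (∀ x ∈ Q, x ∉ A 0 ++ ψ 0 :: B 0) ∧ (∀ x ∈ Q, x ∉ A 1 ++ ψ 1 :: B 1) ∧
      Wk D.Adj (ψ 0) Q (ψ 1))
    (hv : Sum.inl v ∈ S' → ∀ i, Sum.inr i ∈ S' → Wk D.Adj (φ v) (A i ++ ψ i :: B i) (φ v)) :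
    Sd (glue F v) S' D X (Sum.elim φ ψ) (newL L A B Q) := by
  have hmA : ∀ i, ∀ x ∈ A i, x ∈ A i ++ ψ i :: B i := fun i x hx => by simp [hx]
  have hmB : ∀ i, ∀ x ∈ B i, x ∈ A i ++ ψ i :: B i := fun i x hx => by simp [hx]
  have hmψ : ∀ i, ψ i ∈ A i ++ ψ i :: B i := fun i => by simp
  have cross : ∀ i j, Sum.inr i ∈ S' → Sum.inr j ∈ S' → ∀ x ∈ A i ++ ψ i :: B i,
      x ∈ A j ++ ψ j :: B j → i = j := by
    intro i j hi hj x hx hx'
    fin_cases i <;> fin_cases j
    · rfl
    · exact absurd hx' (h01 hi hj x hx)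
    · exact absurd hx (h01 hj hi x hx')
    · rfl
  have crossQ : Sum.inr 0 ∈ S' → Sum.inr 1 ∈ S' → ∀ j, ∀ x ∈ Q, x ∉ A j ++ ψ j :: B j := by
    intro h0 h1 j x hx
    obtain ⟨-, -, h2, h3, -⟩ := hQ h0 h1
    fin_cases j
    · exact h2 x hx
    · exact h3 x hx
  have ndA : ∀ i, Sum.inr i ∈ S' → (A i).Nodup := fun i hi =>
    (List.nodup_append.1 (hnd i hi)).1
  have ndB : ∀ i, Sum.inr i ∈ S' → (B i).Nodup := fun i hi =>
    (List.nodup_cons.1 (List.nodup_append.1 (hnd i hi)).2.1).2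
  have ψB : ∀ i, Sum.inr i ∈ S' → ψ i ∉ B i := fun i hi =>
    (List.nodup_cons.1 (List.nodup_append.1 (hnd i hi)).2.1).1
  have ψA : ∀ i, Sum.inr i ∈ S' → ψ i ∉ A i := fun i hi hx =>
    (List.nodup_append.1 (hnd i hi)).2.2 _ hx (ψ i) (by simp) rfl
  have AB : ∀ i, Sum.inr i ∈ S' → ∀ x ∈ A i, x ∉ B i := fun i hi x hx hx' =>
    (List.nodup_append.1 (hnd i hi)).2.2 _ hx x (by simp [hx']) rfl
  -- an arc between the new vertices
  have new01 : ∀ i j : Fin 2, Sum.inr i ∈ S' → Sum.inr j ∈ S' → i = 0 ∧ j = 1 →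
      Sum.inr (0 : Fin 2) ∈ S' ∧ Sum.inr (1 : Fin 2) ∈ S' := by
    rintro i j hi hj ⟨rfl, rfl⟩
    exact ⟨hi, hj⟩
  refine ⟨?_, ?_, ?_, ?_, ?_, ?_, ?_⟩
  · -- injectivity
    rintro (a | i) hu (b | j) hw hE
    · exact congrArg Sum.inl (h.inj hu hw hE)
    · exact absurd (h.mem a hu) (by
        rw [show φ a = ψ j from hE]
        exact (hC j hw _ (hmψ j)).2)
    · exact absurd (h.mem b hw) (by
        rw [← show ψ i = φ b from hE]
        exact (hC i hu _ (hmψ i)).2)
    · have hE' : ψ i = ψ j := hE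
      exact congrArg Sum.inr (cross i j hu hw (ψ i) (hmψ i) (hE' ▸ hmψ j))
  · -- membership
    rintro (a | i) hu
    · exact hYX (h.mem a hu)
    · exact (hC i hu _ (hmψ i)).1
  · -- walks
    rintro (a | i) hu (b | j) hw hA
    · exact h.wk a hu b hw hA
    · have ha : a = v := hA
      subst ha
      exact (Wk.split.1 (hv hu j hw)).1
    · have ha : b = v := hA
      subst ha
      exact (Wk.split.1 (hv hw i hu)).2
    · have hij : i = 0 ∧ j = 1 := hA
      obtain ⟨rfl, rfl⟩ := hij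
      exact (hQ hu hw).2.2.2.2
  · -- the lists are in `X`
    rintro (a | i) hu (b | j) hw hA x hx
    · exact hYX (h.lmem a hu b hw hA x hx)
    · exact (hC j hw x (hmA j x hx)).1
    · exact (hC i hu x (hmB i x hx)).1
    · obtain ⟨h0, h1⟩ := new01 i j hu hw hA
      exact ((hQ h0 h1).2.1 x hx).1
  · -- no repetitions
    rintro (a | i) hu (b | j) hw hA
    · exact h.nodup a hu b hw hA
    · exact ndA j hw
    · exact ndB i hu
    · obtain ⟨h0, h1⟩ := new01 i j hu hw hA
      exact (hQ h0 h1).1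
  · -- branch vertices
    rintro (a | i) hu (b | j) hw hA (c | k) hk hx
    · exact h.br a hu b hw hA c hk hx
    · exact (hC k hk _ (hmψ k)).2 (h.lmem a hu b hw hA _ hx)
    · exact (hC j hw _ (hmA j _ hx)).2 (h.mem c hk)
    · have e := cross j k hw hk (ψ k) (hmA j _ hx) (hmψ k)
      subst e
      exact ψA j hw hx
    · exact (hC i hu _ (hmB i _ hx)).2 (h.mem c hk)
    · have e := cross i k hu hk (ψ k) (hmB i _ hx) (hmψ k)
      subst e
      exact ψB i hu hx
    · obtain ⟨h0, h1⟩ := new01 i j hu hw hA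
      exact ((hQ h0 h1).2.1 _ hx).2 (h.mem c hk)
    · obtain ⟨h0, h1⟩ := new01 i j hu hw hA
      exact crossQ h0 h1 k _ hx (hmψ k)
  · -- disjointness
    have key : ∀ p q : V ⊕ Fin 2, p ∈ S' → q ∈ S' → (glue F v).Adj p q →
        ∀ x ∈ newL L A B Q p q,
          (∃ a b, p = Sum.inl a ∧ q = Sum.inl b ∧ x ∈ Y) ∨
          (∃ i, Sum.inr i ∈ S' ∧ p = Sum.inl v ∧ q = Sum.inr i ∧ x ∈ A i) ∨
          (∃ i, Sum.inr i ∈ S' ∧ p = Sum.inr i ∧ q = Sum.inl v ∧ x ∈ B i) ∨
          (Sum.inr (0 : Fin 2) ∈ S' ∧ Sum.inr (1 : Fin 2) ∈ S' ∧ p = Sum.inr 0 ∧ q = Sum.inr 1 ∧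
            x ∈ Q) := by
      rintro (a | i) (b | j) hu hw hA x hx
      · exact Or.inl ⟨a, b, rfl, rfl, h.lmem a hu b hw hA x hx⟩
      · have ha : a = v := hA
        exact Or.inr (Or.inl ⟨j, hw, by rw [ha], rfl, hx⟩)
      · have ha : b = v := hA
        exact Or.inr (Or.inr (Or.inl ⟨i, hu, rfl, by rw [ha], hx⟩))
      · have hij : i = 0 ∧ j = 1 := hA
        obtain ⟨rfl, rfl⟩ := hij
        exact Or.inr (Or.inr (Or.inr ⟨hu, hw, rfl, rfl, hx⟩))
    intro p hp q hq hA p' hp' q' hq' hA' x hx hx'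
    rcases key p q hp hq hA x hx with ⟨a, b, rfl, rfl, hY⟩ | ⟨i, hi, rfl, rfl, hx1⟩ |
      ⟨i, hi, rfl, rfl, hx1⟩ | ⟨h0, h1, rfl, rfl, hx1⟩ <;>
    rcases key p' q' hp' hq' hA' x hx' with ⟨a', b', rfl, rfl, hY'⟩ | ⟨j, hj, rfl, rfl, hx2⟩ |
      ⟨j, hj, rfl, rfl, hx2⟩ | ⟨k0, k1, rfl, rfl, hx2⟩
    · obtain ⟨e1, e2⟩ := h.disj a hp b hq hA a' hp' b' hq' hA' x hx hx'
      exact ⟨congrArg Sum.inl e1, congrArg Sum.inl e2⟩
    · exact absurd hY (hC j hj x (hmA j x hx2)).2
    · exact absurd hY (hC j hj x (hmB j x hx2)).2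
    · exact absurd hY ((hQ k0 k1).2.1 x hx2).2
    · exact absurd hY' (hC i hi x (hmA i x hx1)).2
    · have e := cross i j hi hj x (hmA i x hx1) (hmA j x hx2)
      subst e
      exact ⟨rfl, rfl⟩
    · have e := cross i j hi hj x (hmA i x hx1) (hmB j x hx2)
      subst e
      exact absurd hx2 (AB i hi x hx1)
    · exact absurd (hmA i x hx1) (crossQ k0 k1 i x hx2)
    · exact absurd hY' (hC i hi x (hmB i x hx1)).2
    · have e := cross i j hi hj x (hmB i x hx1) (hmA j x hx2)
      subst e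
      exact absurd hx1 (AB i hi x hx2)
    · have e := cross i j hi hj x (hmB i x hx1) (hmB j x hx2)
      subst e
      exact ⟨rfl, rfl⟩
    · exact absurd (hmB i x hx1) (crossQ k0 k1 i x hx2)
    · exact absurd hY' ((hQ h0 h1).2.1 x hx1).2
    · exact absurd (hmA j x hx2) (crossQ h0 h1 j x hx1)
    · exact absurd (hmB j x hx2) (crossQ h0 h1 j x hx1)
    · exact ⟨rfl, rfl⟩

/-! ### Colourings of a vertex set -/

/-- `Y` can be partitioned into `q` acyclic sets. -/
def ColS (D : Digraph W) (Y : Set W) (q : ℕ) : Prop :=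
  ∃ c : W → ℕ, (∀ v ∈ Y, c v < q) ∧ ∀ i, IsAcyclicSet D {v | v ∈ Y ∧ c v = i}

theorem ColS.union {D : Digraph W} {X Y : Set W} {a b : ℕ} (hX : ColS D X a) (hY : ColS D Y b) :
    ColS D (X ∪ Y) (a + b) := by
  classical
  obtain ⟨c, hc, hca⟩ := hX
  obtain ⟨c', hc', hca'⟩ := hY
  refine ⟨fun v => if v ∈ X then c v else a + c' v, ?_, ?_⟩
  · intro v hv
    by_cases h : v ∈ X
    · have := hc v h
      simp only [h, if_true]
      omega
    · have := hc' v (hv.resolve_left h)
      simp only [h, if_false]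
      omega
  · intro i
    by_cases hi : i < a
    · refine (hca i).mono ?_
      rintro v ⟨hv, hvi⟩
      by_cases h : v ∈ X
      · simp only [h, if_true] at hvi
        exact ⟨h, hvi⟩
      · simp only [h, if_false] at hvi
        omega
    · refine (hca' (i - a)).mono ?_
      rintro v ⟨hv, hvi⟩
      by_cases h : v ∈ X
      · have := hc v h
        simp only [h, if_true] at hvi
        omega
      · simp only [h, if_false] at hvi
        exact ⟨hv.resolve_left h, by omega⟩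

theorem ColS.mono {D : Digraph W} {X Y : Set W} {a : ℕ} (h : ColS D Y a) (hXY : X ⊆ Y) :
    ColS D X a := by
  obtain ⟨c, hc, hca⟩ := h
  exact ⟨c, fun v hv => hc v (hXY hv), fun i => (hca i).mono fun v hv => ⟨hXY hv.1, hv.2⟩⟩

theorem colS_of_acyclic {D : Digraph W} {X : Set W} (h : IsAcyclicSet D X) : ColS D X 1 :=
  ⟨fun _ => 0, fun _ _ => Nat.one_pos, fun _ => h.mono fun _ hv => hv.1⟩

theorem acyclic_of_noarc {D : Digraph W} {X : Set W} (h : ∀ a ∈ X, ∀ b ∈ X, ¬ D.Adj a b) :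
    IsAcyclicSet D X := by
  intro v hv
  rcases TransGen.head'_iff.1 hv with ⟨b, ⟨ha, hb, hab⟩, -⟩
  exact h v ha b hb hab

theorem colS_singleton {D : Digraph W} (hD : ∀ v, ¬ D.Adj v v) (x : W) : ColS D {x} 1 := by
  refine colS_of_acyclic (acyclic_of_noarc ?_)
  rintro a rfl b rfl
  exact hD _

theorem colS_empty (D : Digraph W) : ColS D ∅ 0 :=
  ⟨fun _ => 0, fun v hv => absurd hv (Set.notMem_empty v), fun i v hv => by
    rcases TransGen.head'_iff.1 hv with ⟨b, ⟨ha, hb, hab⟩, -⟩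
    exact ha.1⟩

theorem exists_maximal [Finite W] (D : Digraph W) (Z : Set W) (q : ℕ) :
    ∃ X : Set W, X ⊆ Z ∧ ColS D X q ∧ ∀ y ∈ Z, y ∉ X → ¬ ColS D (insert y X) q := by
  classical
  have hne : Nonempty {X : Set W // X ⊆ Z ∧ ColS D X q} := by
    refine ⟨⟨∅, Set.empty_subset _, ?_⟩⟩
    obtain ⟨c, hc, hca⟩ := colS_empty D
    exact ⟨c, fun v hv => absurd hv (Set.notMem_empty v), hca⟩
  obtain ⟨X, hX⟩ := Finite.exists_max (fun X : {X : Set W // X ⊆ Z ∧ ColS D X q} => X.1.ncard)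
  refine ⟨X.1, X.2.1, X.2.2, fun y hyZ hy hc => ?_⟩
  have h1 : (insert y X.1).ncard = X.1.ncard + 1 := Set.ncard_insert_of_notMem hy
  have h2 : (insert y X.1).ncard ≤ X.1.ncard := hX ⟨_, Set.insert_subset hyZ X.2.1, hc⟩
  omega

/-- internal form of Mader-perfectness -/
def Perf (F : Digraph V) : Prop :=
  ∀ (S : Set V) (W : Type) [Finite W] [Nonempty W] (D : Digraph W), (∀ v, ¬ D.Adj v v) →
    ∀ Y : Set W, (∀ q, ColS D Y q → S.ncard ≤ q) → ∃ φ L, Sd F S D Y φ L

theorem Perf.pull {F : Digraph V} (hF : Perf F) (e : V' → V) (he : Function.Injective e) :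
    Perf (pull e F) := by
  intro S W _ _ D hD Y hY
  have hc : (e '' S).ncard = S.ncard := Set.ncard_image_of_injective S he
  obtain ⟨φ, L, h⟩ := hF (e '' S) W D hD Y (by rw [hc]; exact hY)
  have hm : ∀ u ∈ S, e u ∈ e '' S := fun u hu => Set.mem_image_of_mem e hu
  refine ⟨fun u => φ (e u), fun u v => L (e u) (e v), ?_, fun u hu => h.mem _ (hm u hu), ?_, ?_,
    ?_, ?_, ?_⟩
  · intro a ha b hb hab
    exact he (h.inj (hm a ha) (hm b hb) hab)
  · intro u hu v hv hA
    exact h.wk _ (hm u hu) _ (hm v hv) hA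
  · intro u hu v hv hA
    exact h.lmem _ (hm u hu) _ (hm v hv) hA
  · intro u hu v hv hA
    exact h.nodup _ (hm u hu) _ (hm v hv) hA
  · intro u hu v hv hA w hw
    exact h.br _ (hm u hu) _ (hm v hv) hA _ (hm w hw)
  · intro u hu v hv hA u' hu' v' hv' hA' x hx hx'
    obtain ⟨e1, e2⟩ := h.disj _ (hm u hu) _ (hm v hv) hA _ (hm u' hu') _ (hm v' hv') hA' x hx hx'
    exact ⟨he e1, he e2⟩

theorem ncard_split [Finite V] (S' : Set (V ⊕ Fin 2)) :
    S'.ncard = (Sum.inl ⁻¹' S').ncard + (Sum.inr ⁻¹' S').ncard := by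
  have e : S' = Sum.inl '' (Sum.inl ⁻¹' S') ∪ Sum.inr '' (Sum.inr ⁻¹' S') := by
    ext x
    rcases x with a | i <;> simp
  have hd : Disjoint (Sum.inl '' (Sum.inl ⁻¹' S') : Set (V ⊕ Fin 2))
      (Sum.inr '' (Sum.inr ⁻¹' S')) := by
    rw [Set.disjoint_left]
    rintro _ ⟨a, -, rfl⟩ ⟨i, -, h⟩
    exact absurd h (by simp)
  have h1 := Set.ncard_union_eq hd (Set.toFinite _) (Set.toFinite _)
  rw [← e, Set.ncard_image_of_injective _ Sum.inl_injective,
    Set.ncard_image_of_injective _ Sum.inr_injective] at h1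
  exact h1

/-- the number of colours of the rest -/
theorem rest {D : Digraph W} {X Z : Set W} {a s : ℕ} (hX : ColS D X a)
    (hZ : ∀ q, ColS D Z q → s + a ≤ q) : ∀ q, ColS D (Z \ X) q → s ≤ q := by
  intro q hq
  have h1 := ColS.union hX hq
  have h2 : ColS D Z (a + q) := h1.mono (by
    intro v hv
    by_cases h : v ∈ X
    · exact Or.inl h
    · exact Or.inr ⟨hv, h⟩)
  have := hZ _ h2
  omega

/-- one new vertex only -/
theorem perf_one [Finite V] {F : Digraph V} (hF : Perf F) (v : V) {S' : Set (V ⊕ Fin 2)}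
    [Finite W] [Nonempty W] {D : Digraph W} (hD : ∀ v, ¬ D.Adj v v) {Z : Set W}
    (hZ : ∀ q, ColS D Z q → (Sum.inl ⁻¹' S').ncard + (Sum.inr ⁻¹' S').ncard ≤ q) {i : Fin 2}
    (hi : (Sum.inr ⁻¹' S' : Set (Fin 2)) = {i}) : ∃ φ L, Sd (glue F v) S' D Z φ L := by
  classical
  have hN : ∀ j, Sum.inr j ∈ S' → j = i := by
    intro j hj
    have h3 : j ∈ (Sum.inr ⁻¹' S' : Set (Fin 2)) := hj
    rw [hi] at h3
    exact h3
  have h01 : Sum.inr (0 : Fin 2) ∈ S' → Sum.inr (1 : Fin 2) ∈ S' → False := by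
    intro h0 h1
    have e0 := hN 0 h0
    have e1 := hN 1 h1
    rw [← e0] at e1
    exact absurd e1 (by decide)
  rw [hi, Set.ncard_singleton] at hZ
  by_cases hv : Sum.inl v ∈ S'
  · obtain ⟨X, hXZ, hX, hmax⟩ := exists_maximal D Z 1
    obtain ⟨φ, L, h⟩ := hF _ W D hD (Z \ X) (rest hX hZ)
    have hy := h.mem v hv
    have hn := hmax (φ v) hy.1 hy.2
    have hXa : IsAcyclicSet D X := by
      obtain ⟨c, hc, hca⟩ := hX
      refine (hca 0).mono fun x hx => ⟨hx, ?_⟩
      have := hc x hx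
      omega
    obtain ⟨P, hP⟩ := exists_petal D hD hXa (fun h3 => hn (colS_of_acyclic h3))
    obtain ⟨hP1, hP2, hP3, hP4⟩ := hP
    cases P with
    | nil => exact absurd rfl hP1
    | cons p P' =>
      refine ⟨_, _, combine h (X := Z) Set.sdiff_subset v (fun _ => p) (fun _ => [])
        (fun _ => P') [] ?_ ?_ ?_ ?_ ?_⟩
      · intro j _
        exact hP2
      · intro j _ x hx
        have hx' : x ∈ X := hP3 x hx
        exact ⟨hXZ hx', fun h3 => h3.2 hx'⟩
      · intro h0 h1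
        exact (h01 h0 h1).elim
      · intro h0 h1
        exact (h01 h0 h1).elim
      · intro _ j _
        exact hP4
  · obtain ⟨z, hz⟩ : Z.Nonempty := by
      rw [Set.nonempty_iff_ne_empty]
      rintro rfl
      have := hZ 0 (colS_empty D)
      omega
    obtain ⟨φ, L, h⟩ := hF _ W D hD (Z \ {z}) (rest (colS_singleton hD z) hZ)
    refine ⟨_, _, combine h (X := Z) Set.sdiff_subset v (fun _ => z) (fun _ => [])
      (fun _ => []) [] ?_ ?_ ?_ ?_ ?_⟩
    · intro j _
      simp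
    · intro j _ x hx
      have e : x = z := by simpa using hx
      subst e
      exact ⟨hz, fun h3 => h3.2 rfl⟩
    · intro h0 h1
      exact (h01 h0 h1).elim
    · intro h0 h1
      exact (h01 h0 h1).elim
    · intro hv'
      exact absurd hv' hv

/-- THE CLOSURE THEOREM, internal form -/
theorem Perf.glue [Finite V] {F : Digraph V} (hF : Perf F) (v : V) : Perf (glue F v) := by
  classical
  intro S' W _ _ D hD Z hZ
  rw [ncard_split] at hZ
  by_cases h0 : Sum.inr (0 : Fin 2) ∈ S'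
  · by_cases h1 : Sum.inr (1 : Fin 2) ∈ S'
    · -- both new vertices
      have hN : (Sum.inr ⁻¹' S' : Set (Fin 2)).ncard = 2 := by
        have e : (Sum.inr ⁻¹' S' : Set (Fin 2)) = Set.univ := by
          ext i
          fin_cases i
          · simpa using h0
          · simpa using h1
        rw [e, Set.ncard_univ, Nat.card_eq_fintype_card, Fintype.card_fin]
      rw [hN] at hZ
      by_cases hv : Sum.inl v ∈ S'
      · -- the gadget
        obtain ⟨X, hXZ, hX, hmax⟩ := exists_maximal D Z 2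
        obtain ⟨φ, L, h⟩ := hF _ W D hD (Z \ X) (rest hX hZ)
        have hy := h.mem v hv
        have hn := hmax (φ v) hy.1 hy.2
        obtain ⟨c, hc, hca⟩ := hX
        obtain ⟨P₁, P₂, Q, a, b, hP₁, hP₂, hdd, ha, hb, hQ, hQn, hQX, hQ1, hQ2⟩ :=
          gadget D hD (X := X) (y := φ v) (Z₁ := {v | v ∈ X ∧ c v = 0})
            (Z₂ := {v | v ∈ X ∧ c v = 1}) (by
              ext x
              simp only [Set.mem_union, Set.mem_setOf_eq]
              constructor
              · rintro (h | h)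
                · exact h.1
                · exact h.1
              · intro hx
                have := hc x hx
                have h3 : c x = 0 ∨ c x = 1 := by omega
                rcases h3 with h3 | h3
                · exact Or.inl ⟨hx, h3⟩
                · exact Or.inr ⟨hx, h3⟩) (by
              rw [Set.disjoint_left]
              rintro x ⟨-, h3⟩ ⟨-, h4⟩
              omega) (hca 0) (hca 1) (by
              intro T₁ T₂ hT hT1 hT2
              apply hn
              rw [← hT]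
              exact ColS.union (colS_of_acyclic hT1) (colS_of_acyclic hT2))
        obtain ⟨A₀, B₀, rfl⟩ := List.append_of_mem ha
        obtain ⟨A₁, B₁, rfl⟩ := List.append_of_mem hb
        refine ⟨_, _, combine h (X := Z) Set.sdiff_subset v ![a, b] ![A₀, A₁] ![B₀, B₁] Q
          ?_ ?_ ?_ ?_ ?_⟩
        · intro i _
          fin_cases i
          · exact hP₁.2.1
          · exact hP₂.2.1
        · intro i _ x hx
          have hx' : x ∈ X := by
            fin_cases i
            · exact hP₁.2.2.1 x hx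
            · exact hP₂.2.2.1 x hx
          exact ⟨hXZ hx', fun h3 => h3.2 hx'⟩
        · intro _ _ x hx
          exact hdd x hx
        · intro _ _
          exact ⟨hQn, fun x hx => ⟨hXZ (hQX x hx), fun h3 => h3.2 (hQX x hx)⟩, hQ1, hQ2, hQ⟩
        · intro _ i _
          fin_cases i
          · exact hP₁.2.2.2
          · exact hP₂.2.2.2
      · -- a disjoint arc
        obtain ⟨a, haZ, b, hbZ, hab⟩ : ∃ a ∈ Z, ∃ b ∈ Z, D.Adj a b := by
          by_contra hcon
          push Not at hcon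
          have := hZ 1 (colS_of_acyclic (acyclic_of_noarc hcon))
          omega
        have hne : a ≠ b := by
          rintro rfl
          exact hD a hab
        obtain ⟨φ, L, h⟩ := hF _ W D hD (Z \ ({a} ∪ {b}))
          (rest (ColS.union (colS_singleton hD a) (colS_singleton hD b)) hZ)
        refine ⟨_, _, combine h (X := Z) Set.sdiff_subset v ![a, b] ![[], []] ![[], []] []
          ?_ ?_ ?_ ?_ ?_⟩
        · intro i _
          fin_cases i <;> simp
        · intro i _ x hx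
          fin_cases i
          · have e : x = a := by simpa using hx
            subst e
            exact ⟨haZ, fun h3 => h3.2 (Or.inl rfl)⟩
          · have e : x = b := by simpa using hx
            subst e
            exact ⟨hbZ, fun h3 => h3.2 (Or.inr rfl)⟩
        · intro _ _ x hx hx'
          have e : x = a := by simpa using hx
          have e' : x = b := by simpa using hx'
          exact hne (e.symm.trans e')
        · intro _ _
          exact ⟨List.nodup_nil, by simp, by simp, by simp, Wk.nil.2 hab⟩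
        · intro hv'
          exact absurd hv' hv
    · exact perf_one hF v hD hZ (i := 0) (by
        ext j
        fin_cases j
        · simpa using h0
        · simpa using h1)
  · by_cases h1 : Sum.inr (1 : Fin 2) ∈ S'
    · exact perf_one hF v hD hZ (i := 1) (by
        ext j
        fin_cases j
        · simpa using h0
        · simpa using h1)
    · have hN : (Sum.inr ⁻¹' S' : Set (Fin 2)) = ∅ := by
        ext j
        fin_cases j
        · simpa using h0
        · simpa using h1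
      rw [hN, Set.ncard_empty] at hZ
      obtain ⟨φ, L, h⟩ := hF _ W D hD Z hZ
      have hno : ∀ i, Sum.inr i ∉ S' := by
        intro i hi
        have h3 : i ∈ (Sum.inr ⁻¹' S' : Set (Fin 2)) := hi
        rw [hN] at h3
        exact h3
      obtain ⟨w⟩ := (inferInstance : Nonempty W)
      refine ⟨_, _, combine h (X := Z) (le_refl _) v (fun _ => w) (fun _ => []) (fun _ => []) []
          ?_ ?_ ?_ ?_ ?_⟩
      · intro i hi
        exact absurd hi (hno i)
      · intro i hi
        exact absurd hi (hno i)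
      · intro hi
        exact absurd hi (hno 0)
      · intro hi
        exact absurd hi (hno 0)
      · intro _ i hi
        exact absurd hi (hno i)

end Pool.Agent.Helper2_Mader
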